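import Pool.Agent.N699.PC.Stm

/-! Project Q3 (helper699), leaf MODA. -/

set_option autoImplicit false

namespace Pool.Agent.N828.Q3
open Finset Pool.Agent.N699.PC

/-- the multiplication by the theta series without constant term -/
def T (f : ℕ → ℤ) (n : ℕ) : ℤ := ∑ k ∈ Icc 1 n, (if k ^ 2 ≤ n then (-1) ^ k * f (n - k ^ 2) else 0)

lemma T_lin (f g : ℕ → ℤ) (b : ℤ) (n : ℕ) :
    T (fun m => f m + b * g m) n = T f n + b * T g n := by
  unfold T
  rw [mul_sum, ← sum_add_distrib]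
  apply sum_congr rfl
  intro k _
  split_ifs <;> ring

lemma ide_T (hI : IDE) (n : ℕ) : c n + 2 * T c n = h n := by
  rw [← hI n]
  have e : range (n + 1) = insert 0 (Icc 1 n) := by
    ext k
    simp only [mem_range, mem_insert, mem_Icc]
    omega
  rw [e, sum_insert (by simp)]
  congr 1
  · simp [w]
  · unfold T
    rw [mul_sum]
    apply sum_congr rfl
    intro k hk
    have hk0 : k ≠ 0 := by
      have := (mem_Icc.1 hk).1
      omega
    unfold w
    rw [if_neg hk0]
    split_ifs <;> ring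

lemma sym_sum (S : Finset ℕ) (g : ℕ → ℕ → ℤ) (hg : ∀ k l, g k l = g l k) :
    (2 : ℤ) ∣ ∑ k ∈ S, ∑ l ∈ S, g k l - ∑ k ∈ S, g k k := by
  induction S using Finset.induction_on with
  | empty => simp
  | insert a S ha ih =>
    obtain ⟨m, hm⟩ := ih
    refine ⟨m + ∑ l ∈ S, g a l, ?_⟩
    rw [sum_insert ha, sum_insert ha, sum_insert ha]
    have h1 : ∑ k ∈ S, ∑ l ∈ insert a S, g k l = ∑ k ∈ S, g a k + ∑ k ∈ S, ∑ l ∈ S, g k l := by
      rw [← sum_add_distrib]
      apply sum_congr rfl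
      intro k _
      rw [sum_insert ha, hg k a]
    rw [h1]
    linarith

lemma TT (f : ℕ → ℤ) (n : ℕ) : T (T f) n =
    ∑ k ∈ Icc 1 n, ∑ l ∈ Icc 1 n,
      (if k ^ 2 + l ^ 2 ≤ n then (-1) ^ (k + l) * f (n - (k ^ 2 + l ^ 2)) else 0) := by
  unfold T
  apply sum_congr rfl
  intro k hk
  split_ifs with h1
  · rw [mul_sum]
    have hsub : Icc 1 (n - k ^ 2) ⊆ Icc 1 n := Icc_subset_Icc_right (Nat.sub_le _ _)
    symm
    rw [← sum_subset hsub]
    · apply sum_congr rfl
      intro l _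
      by_cases h2 : k ^ 2 + l ^ 2 ≤ n
      · rw [if_pos h2, if_pos (by omega), Nat.sub_sub, pow_add, mul_assoc]
      · rw [if_neg h2, if_neg (by omega), mul_zero]
    · intro l hl hl2
      apply if_neg
      intro h2
      apply hl2
      have h3 : l ≤ l ^ 2 := Nat.le_self_pow (by norm_num) l
      rw [mem_Icc] at hl ⊢
      omega
  · symm
    apply sum_eq_zero
    intro l _
    apply if_neg
    omega

theorem t_MODA : Pool.Agent.N699.PC.MODA := by
  intro hI n
  have hc : ∀ m, c m = h m + (-2) * T c m := fun m => by linarith [ide_T hI m]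
  have hfun : c = fun m => h m + (-2) * T c m := funext hc
  have h1 : ∀ m, T c m = T h m + (-2) * T (T c) m := by
    intro m
    conv_lhs => rw [hfun]
    exact T_lin h (T c) (-2) m
  have hfun1 : T c = fun m => T h m + (-2) * T (T c) m := funext h1
  have h2 : ∀ m, T (T c) m = T (T h) m + (-2) * T (T (T c)) m := by
    intro m
    conv_lhs => rw [hfun1]
    exact T_lin (T h) (T (T c)) (-2) m
  obtain ⟨s, hs⟩ := sym_sum (Icc 1 n)
    (fun k l => if k ^ 2 + l ^ 2 ≤ n then (-1) ^ (k + l) * h (n - (k ^ 2 + l ^ 2)) else 0)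
    (fun k l => by simp only [add_comm])
  rw [← TT] at hs
  have hd : ∑ k ∈ Icc 1 n, (if k ^ 2 + k ^ 2 ≤ n then (-1) ^ (k + k) * h (n - (k ^ 2 + k ^ 2)) else 0) =
      ∑ k ∈ Icc 1 n, (if 2 * k ^ 2 ≤ n then h (n - 2 * k ^ 2) else 0) := by
    apply sum_congr rfl
    intro k _
    have e : k ^ 2 + k ^ 2 = 2 * k ^ 2 := by ring
    rw [e, ← two_mul, pow_mul]
    norm_num
  rw [hd] at hs
  have e1 : ∑ k ∈ Icc 1 n, (if k ^ 2 ≤ n then (-1) ^ k * h (n - k ^ 2) else 0) = T h n := rfl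
  rw [e1]
  refine ⟨-T h n + s - T (T (T c)) n, ?_⟩
  rw [hc n, h1 n, h2 n]
  linarith

end Pool.Agent.N828.Q3
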